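import Pool.Agent.H15.FamBasic

/-!
T3 (quotient by the span of a small frame): let `F` be a subspace spanned by an independent
subfamily `Y` and let `X` be another independent subfamily of vectors of `F`, disjoint from `Y`.
If no element of `Y` is superfluous for the part of `F` generated by the vectors outside `F`,
then every dependency of the family modulo `F` can be lifted with a gain of `|X|`.
-/

set_option linter.unusedSectionVars false

open Module Submodule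

namespace H70.ND

open H15

variable {ι : Type*} [Fintype ι] {E : Type*} [AddCommGroup E] [Module ℝ E]
variable {v : ι → E} {m : ℕ}

/-- the dependencies supported on a set. -/
def DepOn (v : ι → E) (T : Set ι) : Submodule ℝ (ι → ℝ) where
  carrier := {d | (∀ i, i ∉ T → d i = 0) ∧ ∑ i, d i • v i = 0}
  add_mem' := by
    rintro a b ⟨ha, ha'⟩ ⟨hb, hb'⟩
    refine ⟨fun i hi => by simp [ha i hi, hb i hi], ?_⟩
    simp [add_smul, Finset.sum_add_distrib, ha', hb']
  zero_mem' := by simp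
  smul_mem' := by
    rintro r a ⟨ha, ha'⟩
    refine ⟨fun i hi => by simp [ha i hi], ?_⟩
    simp [mul_smul, ← Finset.smul_sum, ha']

theorem mem_depOn {T : Set ι} {d : ι → ℝ} :
    d ∈ DepOn v T ↔ (∀ i, i ∉ T → d i = 0) ∧ ∑ i, d i • v i = 0 := Iff.rfl

/-- a dependency modulo `F = sp v Y` lifts to a dependency supported on `T ∪ Y` where
`T = {i | v i ∉ F}`. -/
theorem exists_lift {F : Submodule ℝ E} {Y : Set ι} (hYF : sp v Y = F) {c : ι → ℝ}
    (hc : ∑ i, c i • F.mkQ (v i) = 0) :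
    ∃ d ∈ DepOn v ({i | v i ∉ F} ∪ Y), ∀ i, v i ∉ F → d i = c i := by
  classical
  have hmem : ∀ x, F.mkQ x = 0 → x ∈ F := fun x hx => by
    rwa [← LinearMap.mem_ker, Submodule.ker_mkQ] at hx
  have h1 : ∑ i, (if v i ∉ F then c i else 0) • v i ∈ F := by
    apply hmem
    rw [map_sum, ← hc]
    refine Finset.sum_congr rfl fun i _ => ?_
    rw [map_smul]
    by_cases hi : v i ∈ F
    · have : F.mkQ (v i) = 0 := by
        rw [← LinearMap.mem_ker, Submodule.ker_mkQ]; exact hi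
      rw [this, smul_zero, smul_zero]
    · rw [if_pos hi]
  rw [← hYF] at h1
  obtain ⟨a, ha, has⟩ := mem_sp_iff.1 h1
  rw [hYF] at has
  have hYmem : ∀ i ∈ Y, v i ∈ F := fun i hi => hYF ▸ mem_sp hi
  refine ⟨fun i => (if v i ∉ F then c i else 0) - a i, ⟨?_, ?_⟩, ?_⟩
  · intro i hi
    have h2 : v i ∈ F := by
      by_contra h
      exact hi (Or.inl h)
    have h3 : i ∉ Y := fun h => hi (Or.inr h)
    simp [h2, ha i h3]
  · simp only [sub_smul, Finset.sum_sub_distrib]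
    rw [has, sub_self]
  · intro i hi
    have h3 : i ∉ Y := fun h => hi (hYmem i h)
    simp [hi, ha i h3]

variable [FiniteDimensional ℝ E]

/-- T3, main form: lifting a dependency modulo `F` with a gain of `|X|`. -/
theorem add_finrank_LL_le (hb : Bdd v m) (hcl : ∀ i, sp v ({i}ᶜ) = ⊤) (htop : sp v Set.univ = ⊤)
    {F : Submodule ℝ E} {Y X : Set ι} (hYX : Disjoint Y X) (hYF : sp v Y = F)
    (hX : LinearIndepOn ℝ v X) (hXF : ∀ i ∈ X, v i ∈ F)
    (hgen : ∀ y ∈ Y, ¬ (sp v {i | v i ∉ F} ⊓ F ≤ sp v (Y \ {y})))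
    {P N : Set ι} (hPN : SVec (F.mkQ ∘ v) P N) :
    X.ncard + finrank ℝ (LL (F.mkQ ∘ v) P N) ≤ m := by
  classical
  set T : Set ι := {i | v i ∉ F} with hT
  have hYmem : ∀ i ∈ Y, v i ∈ F := fun i hi => hYF ▸ mem_sp hi
  have hq0 : ∀ x ∈ F, F.mkQ x = 0 := fun x hx => by
    rw [← LinearMap.mem_ker, Submodule.ker_mkQ]; exact hx
  obtain ⟨c, hc0, hcP, hcN⟩ := hPN
  obtain ⟨d0, hd0, hd0c⟩ := exists_lift hYF hc0
  -- a generic dependency on `T ∪ Y`
  have hex : ∀ i : ((T ∪ Y : Set ι)), ∃ d ∈ DepOn v (T ∪ Y), d i ≠ 0 := by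
    rintro ⟨i, hi⟩
    by_cases hiT : v i ∈ F
    · have hiY : i ∈ Y := by
        rcases hi with hi | hi
        · exact absurd hiT hi
        · exact hi
      have h1 := hgen i hiY
      rw [SetLike.le_def] at h1
      push Not at h1
      obtain ⟨x, ⟨hxT, hxF⟩, hx⟩ := h1
      obtain ⟨a, ha, hax⟩ := mem_sp_iff.1 hxT
      rw [← hYF] at hxF
      obtain ⟨b, hb', hbx⟩ := mem_sp_iff.1 hxF
      refine ⟨fun j => a j - b j, ⟨?_, ?_⟩, ?_⟩
      · intro j hj
        change a j - b j = 0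
        rw [ha j (fun h => hj (Or.inl h)), hb' j (fun h => hj (Or.inr h)), sub_zero]
      · simp only [sub_smul, Finset.sum_sub_distrib]
        rw [hax, hbx, sub_self]
      · change a i - b i ≠ 0
        have h2 : a i = 0 := ha i (fun h => h hiT)
        rw [h2, zero_sub, neg_ne_zero]
        intro h3
        apply hx
        refine mem_sp_iff.2 ⟨b, ?_, hbx⟩
        intro j hj
        by_cases hjY : j ∈ Y
        · have : j = i := by
            by_contra hne
            exact hj ⟨hjY, hne⟩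
          rw [this, h3]
        · exact hb' j hjY
    · have h1 : v i ∈ sp v ({i}ᶜ) := by rw [hcl i]; trivial
      obtain ⟨a, ha, hai⟩ := mem_sp_iff.1 h1
      have h2 : ∑ j, (fun j => (if j = i then (1:ℝ) else 0) - a j) j • F.mkQ (v j) = 0 := by
        simp only [sub_smul, Finset.sum_sub_distrib]
        have h3 : ∑ j, a j • F.mkQ (v j) = F.mkQ (v i) := by
          rw [← hai, map_sum]
          exact Finset.sum_congr rfl fun j _ => by rw [map_smul]
        rw [h3]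
        simp
      obtain ⟨d, hd, hdc⟩ := exists_lift hYF h2
      refine ⟨d, hd, ?_⟩
      change d i ≠ 0
      rw [hdc i hiT]
      have : a i = 0 := ha i (by simp)
      simp [this]
  obtain ⟨⟨d, hd⟩, hdgen⟩ := exists_generic
    (fun i : (T ∪ Y : Set ι) => LinearMap.ker ((LinearMap.proj (R := ℝ) (φ := fun _ : ι => ℝ)
      i.1).comp (DepOn v (T ∪ Y)).subtype)) (by
    intro i hi
    obtain ⟨d, hd, hdi⟩ := hex i
    have : (⟨d, hd⟩ : DepOn v (T ∪ Y)) ∈ (⊤ : Submodule ℝ (DepOn v (T ∪ Y))) := trivial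
    rw [← hi, LinearMap.mem_ker] at this
    exact hdi this)
  have hdne : ∀ i ∈ T ∪ Y, d i ≠ 0 := by
    intro i hi h
    exact hdgen ⟨i, hi⟩ (by rw [LinearMap.mem_ker]; exact h)
  have hs0 : SVec v {i | 0 < d0 i} {i | d0 i < 0} :=
    ⟨d0, hd0.2, fun i => Iff.rfl, fun i => Iff.rfl⟩
  have hs1 : SVec v {i | 0 < d i} {i | d i < 0} :=
    ⟨d, hd.2, fun i => Iff.rfl, fun i => Iff.rfl⟩
  have hs := hs0.comp hs1
  set P1 : Set ι := {i | 0 < d0 i} ∪ ({i | 0 < d i} \ {i | d0 i < 0}) with hP1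
  set N1 : Set ι := {i | d0 i < 0} ∪ ({i | d i < 0} \ {i | 0 < d0 i}) with hN1
  have hcov : P1 ∪ N1 = T ∪ Y := by
    ext i
    constructor
    · intro h
      by_contra hi
      have h1 := hd0.1 i hi
      have h2 := hd.1 i hi
      simp [hP1, hN1, h1, h2] at h
    · intro h
      have h1 := hdne i h
      rcases lt_trichotomy (d0 i) 0 with h2 | h2 | h2
      · exact Or.inr (Or.inl h2)
      · rcases lt_or_gt_of_ne h1 with h3 | h3
        · exact Or.inr (Or.inr ⟨h3, by simp [h2]⟩)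
        · exact Or.inl (Or.inr ⟨h3, by simp [h2]⟩)
      · exact Or.inl (Or.inl h2)
  have hPP : ∀ i ∈ P, v i ∉ F → i ∈ P1 := by
    intro i hi hiF
    refine Or.inl ?_
    change 0 < d0 i
    rw [hd0c i hiF]
    exact (hcP i).2 hi
  have hNN : ∀ i ∈ N, v i ∉ F → i ∈ N1 := by
    intro i hi hiF
    refine Or.inl ?_
    change d0 i < 0
    rw [hd0c i hiF]
    exact (hcN i).2 hi
  have hLLle : LL (F.mkQ ∘ v) P N ≤ LL (F.mkQ ∘ v) P1 N1 := by
    refine inf_le_inf ?_ ?_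
    · rw [sp_le]
      intro i hi
      by_cases hiF : v i ∈ F
      · change F.mkQ (v i) ∈ _
        rw [hq0 _ hiF]; exact zero_mem _
      · exact mem_sp (hPP i hi hiF)
    · rw [sp_le]
      intro i hi
      by_cases hiF : v i ∈ F
      · change F.mkQ (v i) ∈ _
        rw [hq0 _ hiF]; exact zero_mem _
      · exact mem_sp (hNN i hi hiF)
  -- the two parts of `Y`
  have hFsp : F ≤ sp v (P1 ∪ N1) := by
    rw [hcov, ← hYF]
    exact sp_mono Set.subset_union_right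
  have hAB : sp v (Y ∩ P1) ⊔ sp v (Y ∩ N1) = F := by
    rw [← sp_union, ← Set.inter_union_distrib_left, hcov, Set.inter_eq_left.2
      Set.subset_union_right, hYF]
  obtain ⟨s, hsplit⟩ := exists_split (sp v (Y ∩ P1)) (sp v (Y ∩ N1)) (fun i : X => v i) hX
    (fun i => by rw [hAB]; exact hXF i.1 i.2)
  rw [hAB] at hsplit
  have hXcard : Fintype.card X = X.ncard := by
    rw [← Nat.card_eq_fintype_card]; rfl
  rw [hXcard] at hsplit
  let S1 : Set ι := Subtype.val '' (s : Set X)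
  let S2 : Set ι := Subtype.val '' ((s : Set X)ᶜ)
  have hS1X : S1 ⊆ X := by rintro _ ⟨i, _, rfl⟩; exact i.2
  have hS2X : S2 ⊆ X := by rintro _ ⟨i, _, rfl⟩; exact i.2
  have hS12 : ∀ i, i ∈ S1 → i ∉ S2 := by
    rintro _ ⟨i, hi, rfl⟩ ⟨j, hj, hij⟩
    have : j = i := Subtype.ext hij
    rw [this] at hj
    exact hj hi
  have hXcov : ∀ i ∈ X, i ∉ P1 ∪ N1 := by
    intro i hi h
    rw [hcov] at h
    rcases h with h | h
    · exact h (hXF i hi)
    · exact Set.disjoint_left.1 hYX h hi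
  let e : ι → ℝ := fun i => if i ∈ S1 then 1 else if i ∈ S2 then -1 else 0
  have he : ∑ i, e i • v i ∈ sp v (P1 ∪ N1) := by
    refine Submodule.sum_mem _ fun i _ => ?_
    by_cases hi : i ∈ X
    · exact Submodule.smul_mem _ _ (hFsp (hXF i hi))
    · have h1 : i ∉ S1 := fun h => hi (hS1X h)
      have h2 : i ∉ S2 := fun h => hi (hS2X h)
      simp [e, h1, h2]
  have hs2 := hs.ext e he
  set P2 := P1 ∪ {i | 0 < e i ∧ i ∉ N1} with hP2
  set N2 := N1 ∪ {i | e i < 0 ∧ i ∉ P1} with hN2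
  have hS1P : S1 ⊆ P2 := by
    intro i hi
    refine Or.inr ⟨?_, fun h => hXcov i (hS1X hi) (Or.inr h)⟩
    simp [e, hi]
  have hS2N : S2 ⊆ N2 := by
    intro i hi
    refine Or.inr ⟨?_, fun h => hXcov i (hS2X hi) (Or.inl h)⟩
    have : i ∉ S1 := fun h => hS12 i h hi
    simp [e, hi, this]
  have hw1 : (fun i : X => v i) '' (s : Set X) = v '' S1 := by
    ext x
    constructor
    · rintro ⟨i, hi, rfl⟩; exact ⟨i.1, ⟨i, hi, rfl⟩, rfl⟩
    · rintro ⟨_, ⟨i, hi, rfl⟩, rfl⟩; exact ⟨i, hi, rfl⟩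
  have hw2 : (fun i : X => v i) '' ((s : Set X)ᶜ) = v '' S2 := by
    ext x
    constructor
    · rintro ⟨i, hi, rfl⟩; exact ⟨i.1, ⟨i, hi, rfl⟩, rfl⟩
    · rintro ⟨_, ⟨i, hi, rfl⟩, rfl⟩; exact ⟨i, hi, rfl⟩
  rw [hw1, hw2] at hsplit
  have hA := finrank_add_le_of_quot F.mkQ (sp v (Y ∩ P1) ⊔ span ℝ (v '' S1)) (sp v P2)
    (sp (F.mkQ ∘ v) P1) (by
      refine sup_le (sp_mono ?_) (sp_mono hS1P)
      exact Set.inter_subset_right.trans Set.subset_union_left) (by
      intro x hx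
      refine hq0 x ?_
      have : sp v (Y ∩ P1) ⊔ sp v S1 ≤ F := by
        refine sup_le (sp_le.2 fun i hi => hYmem i hi.1) (sp_le.2 fun i hi => hXF i (hS1X hi))
      exact this hx) (by
      rw [sp_comp]
      exact Submodule.map_mono (sp_mono Set.subset_union_left))
  have hB := finrank_add_le_of_quot F.mkQ (sp v (Y ∩ N1) ⊔ span ℝ (v '' S2)) (sp v N2)
    (sp (F.mkQ ∘ v) N1) (by
      refine sup_le (sp_mono ?_) (sp_mono hS2N)
      exact Set.inter_subset_right.trans Set.subset_union_left) (by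
      intro x hx
      refine hq0 x ?_
      have : sp v (Y ∩ N1) ⊔ sp v S2 ≤ F := by
        refine sup_le (sp_le.2 fun i hi => hYmem i hi.1) (sp_le.2 fun i hi => hXF i (hS2X hi))
      exact this hx) (by
      rw [sp_comp]
      exact Submodule.map_mono (sp_mono Set.subset_union_left))
  have h1 := finrank_LL (v := v) (X := P2) (Y := N2)
  have h2 := finrank_LL (v := F.mkQ ∘ v) (X := P1) (Y := N1)
  have h3 : sp (F.mkQ ∘ v) (P1 ∪ N1) = ⊤ := by
    rw [eq_top_iff]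
    have h4 : sp (F.mkQ ∘ v) Set.univ = ⊤ := by
      rw [sp_comp, htop, Submodule.map_top, Submodule.range_mkQ]
    rw [← h4, sp_le]
    intro i _
    by_cases hiF : v i ∈ F
    · change F.mkQ (v i) ∈ _
      rw [hq0 _ hiF]; exact zero_mem _
    · exact mem_sp (by rw [hcov]; exact Or.inl hiF)
  rw [h3, finrank_top] at h2
  have h5 := Submodule.finrank_quotient_add_finrank F
  have h6 : finrank ℝ (sp v (P2 ∪ N2)) ≤ finrank ℝ E := Submodule.finrank_le _
  have h7 := hb _ _ hs2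
  have h8 : finrank ℝ (LL (F.mkQ ∘ v) P N) ≤ finrank ℝ (LL (F.mkQ ∘ v) P1 N1) :=
    Submodule.finrank_mono hLLle
  omega

/-- T3 as a bound on the quotient. -/
theorem bdd_quot (hb : Bdd v m) (hcl : ∀ i, sp v ({i}ᶜ) = ⊤) (htop : sp v Set.univ = ⊤)
    {F : Submodule ℝ E} {Y X : Set ι} (hYX : Disjoint Y X) (hYF : sp v Y = F)
    (hX : LinearIndepOn ℝ v X) (hXF : ∀ i ∈ X, v i ∈ F)
    (hgen : ∀ y ∈ Y, ¬ (sp v {i | v i ∉ F} ⊓ F ≤ sp v (Y \ {y}))) :
    X.ncard ≤ m ∧ Bdd (F.mkQ ∘ v) (m - X.ncard) := by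
  constructor
  · have := add_finrank_LL_le hb hcl htop hYX hYF hX hXF hgen (svec_empty (v := F.mkQ ∘ v))
    omega
  · intro P N hPN
    have := add_finrank_LL_le hb hcl htop hYX hYF hX hXF hgen hPN
    omega

/-- the span of an independent family drops when an element is left out. -/
theorem finrank_sp_sdiff {Y : Set ι} (hY : LinearIndepOn ℝ v Y) {y : ι} (hy : y ∈ Y) :
    finrank ℝ (sp v (Y \ {y})) + 1 = finrank ℝ (sp v Y) := by
  rw [finrank_sp_eq hY, finrank_sp_eq (hY.mono Set.sdiff_subset)]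
  exact Set.ncard_sdiff_singleton_add_one hy

/-- T3 with the lift condition in the form of the architecture. -/
theorem gstar (hc : Cosimple v) (hb : Bdd v m) (F : Submodule ℝ E) {X Y : Set ι}
    (hXF : ∀ i ∈ X, v i ∈ F) (hd : Disjoint X Y)
    (hX : LinearIndepOn ℝ v X) (_hY : LinearIndepOn ℝ v Y) (hYF : sp v Y = F)
    (hlift : ∀ y ∈ Y, ∃ g ∈ sp v {i | v i ∉ F} ⊓ F, g ∉ sp v (Y \ {y}))
    {P Q : Set ι} (hPQ : SVec (F.mkQ ∘ v) P Q) :
    X.ncard + finrank ℝ (LL (F.mkQ ∘ v) P Q) ≤ m := by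
  rcases isEmpty_or_nonempty ι with he | ⟨⟨i0⟩⟩
  · have h1 : X = ∅ := Set.eq_empty_of_isEmpty X
    have h2 : LL (F.mkQ ∘ v) P Q = ⊥ := by
      rw [eq_bot_iff]
      refine inf_le_left.trans ?_
      rw [sp_le]
      intro i
      exact (IsEmpty.false i).elim
    rw [h1, h2, Set.ncard_empty, finrank_bot]
    omega
  · refine add_finrank_LL_le hb hc.span_compl (hc.span_univ i0) hd.symm hYF hX hXF ?_ hPQ
    intro y hy h
    obtain ⟨g, hg, hgn⟩ := hlift y hy
    exact hgn (h hg)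

/-- genericity when the vectors outside `F` span everything. -/
theorem gen_of_top {F : Submodule ℝ E} {Y : Set ι} (hYF : sp v Y = F)
    (hY : LinearIndepOn ℝ v Y) (hT : sp v {i | v i ∉ F} = ⊤) :
    ∀ y ∈ Y, ¬ (sp v {i | v i ∉ F} ⊓ F ≤ sp v (Y \ {y})) := by
  intro y hy h
  rw [hT, top_inf_eq] at h
  have h1 := finrank_sp_sdiff hY hy
  have h2 := Submodule.finrank_mono h
  rw [hYF] at h1
  omega

/-- genericity when the vectors outside `F` span a hyperplane and two elements of `Y` are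
outside of it. -/
theorem gen_of_hyper {F : Submodule ℝ E} {Y : Set ι} (hYF : sp v Y = F)
    (hY : LinearIndepOn ℝ v Y) (hT : finrank ℝ E ≤ finrank ℝ (sp v {i | v i ∉ F}) + 1)
    {y1 y2 : ι} (hy1 : y1 ∈ Y) (hy2 : y2 ∈ Y) (hne : y1 ≠ y2)
    (h1 : v y1 ∉ sp v {i | v i ∉ F}) (h2 : v y2 ∉ sp v {i | v i ∉ F}) :
    ∀ y ∈ Y, ¬ (sp v {i | v i ∉ F} ⊓ F ≤ sp v (Y \ {y})) := by
  intro y hy h
  have h3 := finrank_sp_sdiff hY hy
  rw [hYF] at h3
  have h4 := Submodule.finrank_sup_add_finrank_inf_eq (sp v {i | v i ∉ F}) F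
  have h5 : finrank ℝ ↥(sp v {i | v i ∉ F} ⊔ F) ≤ finrank ℝ E := Submodule.finrank_le _
  have h6 : sp v {i | v i ∉ F} ⊓ F = sp v (Y \ {y}) := by
    refine Submodule.eq_of_le_of_finrank_le h ?_
    omega
  obtain ⟨y', hy', hyne, hy'3⟩ : ∃ y' ∈ Y, y' ≠ y ∧ v y' ∉ sp v {i | v i ∉ F} := by
    by_cases h7 : y1 = y
    · exact ⟨y2, hy2, fun h8 => hne (h7.trans h8.symm), h2⟩
    · exact ⟨y1, hy1, h7, h1⟩
  have h8 : v y' ∈ sp v (Y \ {y}) := mem_sp ⟨hy', hyne⟩
  rw [← h6] at h8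
  exact hy'3 h8.1

/-- replacing an element of an independent family by a vector which has a nonzero coordinate at
it. -/
theorem exchange {F : Submodule ℝ E} {Y : Set ι} (hYF : sp v Y = F)
    (hY : LinearIndepOn ℝ v Y) {y z : ι} (hy : y ∈ Y) (hz : v z ∈ F)
    (hzy : v z ∉ sp v (Y \ {y})) :
    LinearIndepOn ℝ v (insert z (Y \ {y})) ∧ sp v (insert z (Y \ {y})) = F := by
  have h1 : LinearIndepOn ℝ v (insert z (Y \ {y})) :=
    (hY.mono Set.sdiff_subset).insert hzy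
  refine ⟨h1, Submodule.eq_of_le_of_finrank_le ?_ ?_⟩
  · rw [sp_le]
    rintro i (rfl | hi)
    · exact hz
    · exact hYF ▸ mem_sp hi.1
  · have h2 := finrank_sp_sdiff hY hy
    have h3 := finrank_sp_insert hzy
    rw [hYF] at h2
    omega

/-- if exactly one element `y0` of a basis `Y` of `F` is outside `H` and `z` is another element
of `F` outside `H` which is not parallel to `y0` then `Y` can be exchanged into a basis with two
elements outside `H`. -/
theorem exists_exchange_one {F H : Submodule ℝ E} {Y : Set ι} (hYF : sp v Y = F)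
    (hY : LinearIndepOn ℝ v Y) {y0 z : ι} (hy0 : y0 ∈ Y) (hz : v z ∈ F) (hzY : z ∉ Y)
    (hy0H : v y0 ∉ H) (hzH : v z ∉ H) (hpar : v z ∉ span ℝ {v y0}) :
    ∃ Y' : Set ι, Y' ⊆ insert z Y ∧ LinearIndepOn ℝ v Y' ∧ sp v Y' = F ∧
      ∃ y1 ∈ Y', ∃ y2 ∈ Y', y1 ≠ y2 ∧ v y1 ∉ H ∧ v y2 ∉ H := by
  classical
  obtain ⟨y, hy, hyne, hzy⟩ : ∃ y ∈ Y, y ≠ y0 ∧ v z ∉ sp v (Y \ {y}) := by
    by_contra hcon
    push Not at hcon
    obtain ⟨a, ha, haz⟩ := mem_sp_iff.1 (show v z ∈ sp v Y by rw [hYF]; exact hz)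
    apply hpar
    have h1 : ∀ y, y ≠ y0 → a y = 0 := by
      intro y hyne
      by_cases hyY : y ∈ Y
      · have h2 := hcon y hyY hyne
        obtain ⟨b, hb', hbz⟩ := mem_sp_iff.1 h2
        have h3 := (linInd_iff.1 hY) (fun i => a i - b i) (by
          intro i hi
          have h4 : i ∉ Y \ {y} := fun h => hi h.1
          change a i - b i = 0
          rw [ha i hi, hb' i h4, sub_zero]) (by
          simp only [sub_smul, Finset.sum_sub_distrib]
          rw [haz, hbz, sub_self]) y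
        have h5 : b y = 0 := hb' y (by simp)
        have h6 : a y - b y = 0 := h3
        rw [h5, sub_zero] at h6
        exact h6
      · exact ha y hyY
    rw [mem_span_singleton]
    refine ⟨a y0, ?_⟩
    rw [← haz]
    have h6 : ∑ i, a i • v i = a y0 • v y0 := by
      refine Finset.sum_eq_single y0 (fun i _ hi => ?_) (fun h => absurd (Finset.mem_univ _) h)
      rw [h1 i hi, zero_smul]
    exact h6.symm
  obtain ⟨h1, h2⟩ := exchange hYF hY hy hz hzy
  refine ⟨insert z (Y \ {y}), Set.insert_subset_insert Set.sdiff_subset, h1, h2, z,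
    Set.mem_insert _ _, y0, Set.mem_insert_of_mem _ ⟨hy0, hyne.symm⟩, ?_, hzH, hy0H⟩
  rintro rfl
  exact hzY hy0

/-- two disjoint bases of `F`, and three elements of `F` outside `H` not all of which are
parallel: after an exchange one of the bases has two elements outside `H`. -/
theorem exists_exchange {F H : Submodule ℝ E} {X Y : Set ι} (hXY : Disjoint X Y)
    (hX : LinearIndepOn ℝ v X) (hY : LinearIndepOn ℝ v Y) (hXF : sp v X = F)
    (hYF : sp v Y = F) (h3 : 3 ≤ {i | v i ∉ H}.ncard) (hHF : ∀ i, v i ∉ H → v i ∈ F)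
    (hpar : ∀ a b c : ι, a ≠ b → a ≠ c → b ≠ c → v a ∈ span ℝ {v b} → v a ∈ span ℝ {v c} →
      False) :
    ∃ X' Y' : Set ι, Disjoint X' Y' ∧ LinearIndepOn ℝ v X' ∧ LinearIndepOn ℝ v Y' ∧
      sp v X' = F ∧ sp v Y' = F ∧
      ∃ y1 ∈ Y', ∃ y2 ∈ Y', y1 ≠ y2 ∧ v y1 ∉ H ∧ v y2 ∉ H := by
  classical
  have hne : ∀ Y : Set ι, sp v Y = F → ∃ y ∈ Y, v y ∉ H := by
    intro Y hYF
    by_contra hcon
    push Not at hcon
    have h4 : F ≤ H := by rw [← hYF, sp_le]; exact hcon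
    have h5 : {i | v i ∉ H} = ∅ := by
      rw [Set.eq_empty_iff_forall_notMem]
      intro i hi
      exact hi (h4 (hHF i hi))
    rw [h5] at h3
    simp at h3
  obtain ⟨x0, hx0, hx0H⟩ := hne X hXF
  obtain ⟨y0, hy0, hy0H⟩ := hne Y hYF
  by_cases hX2 : ∃ x ∈ X, x ≠ x0 ∧ v x ∉ H
  · obtain ⟨x, hx, hxne, hxH⟩ := hX2
    exact ⟨Y, X, hXY.symm, hY, hX, hYF, hXF, x, hx, x0, hx0, hxne, hxH, hx0H⟩
  by_cases hY2 : ∃ y ∈ Y, y ≠ y0 ∧ v y ∉ H
  · obtain ⟨y, hy, hyne, hyH⟩ := hY2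
    exact ⟨X, Y, hXY, hX, hY, hXF, hYF, y, hy, y0, hy0, hyne, hyH, hy0H⟩
  push Not at hX2 hY2
  have hx0y0 : x0 ≠ y0 := by
    rintro rfl
    exact Set.disjoint_left.1 hXY hx0 hy0
  obtain ⟨z, hzH, hz⟩ : ∃ z ∈ {i | v i ∉ H}, z ∉ ({x0, y0} : Set ι) := by
    by_contra hcon
    push Not at hcon
    have h4 : {i | v i ∉ H}.ncard ≤ ({x0, y0} : Set ι).ncard :=
      Set.ncard_le_ncard hcon (Set.toFinite _)
    rw [Set.ncard_pair hx0y0] at h4
    omega
  simp only [Set.mem_insert_iff, Set.mem_singleton_iff, not_or] at hz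
  have hzX : z ∉ X := fun h => hzH (hX2 z h hz.1)
  have hzY : z ∉ Y := fun h => hzH (hY2 z h hz.2)
  by_cases hpy : v z ∈ span ℝ {v y0}
  · have hpx : v z ∉ span ℝ {v x0} := fun h => hpar z x0 y0 hz.1 hz.2 hx0y0 h hpy
    obtain ⟨X', hsub, h4, h5, h6⟩ := exists_exchange_one hXF hX hx0 (hHF z hzH) hzX hx0H hzH hpx
    refine ⟨Y, X', ?_, hY, h4, hYF, h5, h6⟩
    rw [Set.disjoint_left]
    intro i hiY hiX'
    rcases hsub hiX' with rfl | hiX
    · exact hzY hiY
    · exact Set.disjoint_left.1 hXY hiX hiY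
  · obtain ⟨Y', hsub, h4, h5, h6⟩ := exists_exchange_one hYF hY hy0 (hHF z hzH) hzY hy0H hzH hpy
    refine ⟨X, Y', ?_, hX, h4, hXF, h5, h6⟩
    rw [Set.disjoint_left]
    intro i hiX hiY'
    rcases hsub hiY' with rfl | hiY
    · exact hzX hiX
    · exact Set.disjoint_left.1 hXY hiX hiY

/-- a proper subspace misses at least three elements of a cosimple family. -/
theorem Cosimple.three_le (hc : Cosimple v) {H : Submodule ℝ E} (hH : H ≠ ⊤) (i0 : ι) :
    3 ≤ {i | v i ∉ H}.ncard := by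
  classical
  by_contra hcon
  have hex : ∃ i j : ι, {i | v i ∉ H} ⊆ {i, j} := by
    have h2 : {i | v i ∉ H}.ncard ≤ 2 := by omega
    rcases Nat.lt_or_ge {i | v i ∉ H}.ncard 2 with h3 | h3
    · have h4 : {i | v i ∉ H}.ncard ≤ 1 := by omega
      rw [Set.ncard_le_one_iff_eq (Set.toFinite _)] at h4
      rcases h4 with h4 | ⟨a, h4⟩
      · exact ⟨i0, i0, by rw [h4]; exact Set.empty_subset _⟩
      · exact ⟨a, a, by rw [h4, Set.pair_eq_singleton]⟩
    · have h4 : {i | v i ∉ H}.ncard = 2 := by omega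
      obtain ⟨a, b, _, hab⟩ := Set.ncard_eq_two.1 h4
      exact ⟨a, b, by rw [hab]⟩
  obtain ⟨i, j, hij⟩ := hex
  apply hH
  rw [eq_top_iff, ← hc i j, sp_le]
  intro l hl
  by_contra h
  exact hl (hij h)

/-- T3, `S \ F` spanning: the quotient by `F` of a cosimple family. -/
theorem bdd_quot_top (hb : Bdd v m) (hc : Cosimple v) (i0 : ι)
    {F : Submodule ℝ E} {Y X : Set ι} (hYX : Disjoint Y X)
    (hY : LinearIndepOn ℝ v Y) (hYF : sp v Y = F)
    (hX : LinearIndepOn ℝ v X) (hXF : ∀ i ∈ X, v i ∈ F) (hT : sp v {i | v i ∉ F} = ⊤) :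
    X.ncard ≤ m ∧ Bdd (F.mkQ ∘ v) (m - X.ncard) :=
  bdd_quot hb (hc.span_compl) (hc.span_univ i0) hYX hYF hX hXF (gen_of_top hYF hY hT)

/-- T3, `S \ F` spanning everything or a hyperplane, two disjoint bases of `F`, no three
parallel elements. -/
theorem bdd_quot_bases (hb : Bdd v m) (hc : Cosimple v) (i0 : ι)
    {F : Submodule ℝ E} {Y X : Set ι} (hXY : Disjoint X Y)
    (hX : LinearIndepOn ℝ v X) (hXF : sp v X = F)
    (hY : LinearIndepOn ℝ v Y) (hYF : sp v Y = F)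
    (hT : finrank ℝ E ≤ finrank ℝ (sp v {i | v i ∉ F}) + 1)
    (hpar : ∀ a b c : ι, a ≠ b → a ≠ c → b ≠ c → v a ∈ span ℝ {v b} → v a ∈ span ℝ {v c} →
      False) :
    finrank ℝ F ≤ m ∧ Bdd (F.mkQ ∘ v) (m - finrank ℝ F) := by
  by_cases htop : sp v {i | v i ∉ F} = ⊤
  · have h1 := bdd_quot_top hb hc i0 hXY.symm hY hYF hX
      (fun i hi => hXF ▸ mem_sp hi) htop
    rwa [← finrank_sp_eq hX, hXF] at h1
  · obtain ⟨X', Y', h1, h2, h3, h4, h5, y1, hy1, y2, hy2, hne, h6, h7⟩ :=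
      exists_exchange (H := sp v {i | v i ∉ F}) hXY hX hY hXF hYF
        (Cosimple.three_le hc htop i0) (by
        intro i hi
        by_contra h
        exact hi (mem_sp h)) hpar
    have h8 := bdd_quot hb hc.span_compl (hc.span_univ i0) h1.symm h5 h2
      (fun i hi => h4 ▸ mem_sp hi) (gen_of_hyper h5 h3 hT hy1 hy2 hne h6 h7)
    rwa [← finrank_sp_eq h2, h4] at h8

end H70.ND
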